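import Pool.Agent.Q179.NH.Defs
import Pool.Agent.Helper330.DPK.Coh

/-!
# A coherent system of almost disjoint codes on `ω₁`
-/

open Set Topology

namespace Pool.Agent.Q179.NH

open Pool.Agent.Helper330.DPK

/-- The finite set of `ξ < a`, `ξ < b` where `cg a` and `cg b` differ. -/
noncomputable def dif (a b : W) : Finset W := (Coh.cg_coh a b).toFinset

theorem mem_dif {a b ξ : W} : ξ ∈ dif a b ↔ ξ < a ∧ ξ < b ∧ Coh.cg a ξ ≠ Coh.cg b ξ := by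
  simp [dif]

/-- The code of `γ` at level `n`. -/
noncomputable def code (γ : W) (n : ℕ) : ℕ := {ξ | ξ < γ ∧ Coh.cg γ ξ ≤ n}.ncard

/-- From level `m α γ` on, the code of `γ` can be computed from `cg α`. -/
noncomputable def m (α γ : W) : ℕ :=
  max (Coh.cg α γ) ((dif γ α).sup fun ξ => max (Coh.cg α ξ) (Coh.cg γ ξ))

theorem cg_le_m (α γ : W) : Coh.cg α γ ≤ m α γ := le_max_left _ _

theorem le_m {α γ ξ : W} (h : ξ ∈ dif γ α) :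
    Coh.cg α ξ ≤ m α γ ∧ Coh.cg γ ξ ≤ m α γ := by
  have h1 : max (Coh.cg α ξ) (Coh.cg γ ξ) ≤
      (dif γ α).sup fun ξ => max (Coh.cg α ξ) (Coh.cg γ ξ) :=
    Finset.le_sup (f := fun ξ => max (Coh.cg α ξ) (Coh.cg γ ξ)) h
  have h2 := h1.trans (le_max_right (Coh.cg α γ) _)
  exact ⟨(le_max_left _ _).trans h2, (le_max_right _ _).trans h2⟩

theorem m_le_iff {α γ : W} {k : ℕ} : m α γ ≤ k ↔ Coh.cg α γ ≤ k ∧
    ∀ ξ ∈ dif γ α, Coh.cg α ξ ≤ k ∧ Coh.cg γ ξ ≤ k := by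
  unfold m
  rw [max_le_iff, Finset.sup_le_iff]
  simp only [max_le_iff]

theorem code_eq {α γ : W} (hγ : γ < α) {n : ℕ} (hn : m α γ ≤ n) :
    code γ n = {ξ | ξ < γ ∧ Coh.cg α ξ ≤ n}.ncard := by
  have : {ξ | ξ < γ ∧ Coh.cg γ ξ ≤ n} = {ξ | ξ < γ ∧ Coh.cg α ξ ≤ n} := by
    ext ξ
    simp only [mem_ofPred_eq, and_congr_right_iff]
    intro hξ
    by_cases h : Coh.cg γ ξ = Coh.cg α ξ
    · rw [h]
    · have h1 := le_m (mem_dif.2 ⟨hξ, hξ.trans hγ, h⟩)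
      exact ⟨fun _ => h1.1.trans hn, fun _ => h1.2.trans hn⟩
  unfold code
  rw [this]

theorem code_lt {α γ γ' : W} (hγγ : γ < γ') (hγ' : γ' < α) {n : ℕ} (hn : m α γ ≤ n)
    (hn' : m α γ' ≤ n) : code γ n < code γ' n := by
  rw [code_eq (hγγ.trans hγ') hn, code_eq hγ' hn']
  have hfin : {ξ | ξ < γ' ∧ Coh.cg α ξ ≤ n}.Finite :=
    (Coh.cg_fin α n).subset fun ξ hξ => ⟨hξ.1.trans hγ', hξ.2⟩
  refine Set.ncard_lt_ncard ⟨fun ξ hξ => ⟨hξ.1.trans hγγ, hξ.2⟩, ?_⟩ hfin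
  intro hsub
  have h1 : γ ∈ {ξ | ξ < γ ∧ Coh.cg α ξ ≤ n} := hsub ⟨hγγ, (cg_le_m α γ).trans hn⟩
  exact lt_irrefl γ h1.1

theorem code_inj {α γ γ' : W} (hγ : γ < α) (hγ' : γ' < α) {n : ℕ} (hn : m α γ ≤ n)
    (hn' : m α γ' ≤ n) (h : code γ n = code γ' n) : γ = γ' := by
  rcases lt_trichotomy γ γ' with h1 | h1 | h1
  · exact absurd h (code_lt h1 hγ' hn hn').ne
  · exact h1
  · exact absurd h (code_lt h1 hγ hn' hn).ne'

theorem m_coh (α β : W) : {γ | γ < α ∧ γ < β ∧ m α γ ≠ m β γ}.Finite := by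
  let c : ℕ := (dif α β).sup fun ξ => max (Coh.cg α ξ) (Coh.cg β ξ)
  have hc : ∀ ξ ∈ dif α β, Coh.cg α ξ ≤ c ∧ Coh.cg β ξ ≤ c := by
    intro ξ hξ
    have h1 : max (Coh.cg α ξ) (Coh.cg β ξ) ≤ c :=
      Finset.le_sup (f := fun ξ => max (Coh.cg α ξ) (Coh.cg β ξ)) hξ
    exact ⟨(le_max_left _ _).trans h1, (le_max_right _ _).trans h1⟩
  have hsymm : ∀ ξ, ξ ∈ dif α β → ξ ∈ dif β α := by
    intro ξ h
    rw [mem_dif] at h ⊢
    exact ⟨h.2.1, h.1, fun e => h.2.2 e.symm⟩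
  have key : ∀ α β γ : W, γ < α → γ < β → Coh.cg α γ = Coh.cg β γ →
      (∀ ξ ∈ dif α β, Coh.cg α ξ ≤ Coh.cg β γ ∧ Coh.cg β ξ ≤ Coh.cg β γ) →
      m α γ ≤ m β γ := by
    intro α β γ hα hβ he hD
    rw [m_le_iff]
    refine ⟨he ▸ cg_le_m β γ, fun ξ hξ => ?_⟩
    obtain ⟨h1, h2, h3⟩ := mem_dif.1 hξ
    by_cases hξD : Coh.cg α ξ = Coh.cg β ξ
    · have h4 : ξ ∈ dif γ β := mem_dif.2 ⟨h1, h1.trans hβ, hξD ▸ h3⟩
      have h5 := le_m h4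
      exact ⟨hξD ▸ h5.1, h5.2⟩
    · have h4 := hD ξ (mem_dif.2 ⟨h2, h1.trans hβ, hξD⟩)
      refine ⟨h4.1.trans (cg_le_m β γ), ?_⟩
      by_cases h5 : Coh.cg γ ξ = Coh.cg β ξ
      · rw [h5]
        exact h4.2.trans (cg_le_m β γ)
      · exact (le_m (mem_dif.2 ⟨h1, h1.trans hβ, h5⟩)).2
  refine ((dif α β).finite_toSet.union (Coh.cg_fin α c)).subset ?_
  rintro γ ⟨hα, hβ, hne⟩
  by_cases hγ : γ ∈ dif α β
  · exact Or.inl hγ
  · right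
    refine ⟨hα, ?_⟩
    by_contra hlt
    push Not at hlt
    have he : Coh.cg α γ = Coh.cg β γ := by
      by_contra he
      exact hγ (mem_dif.2 ⟨hα, hβ, he⟩)
    apply hne
    apply le_antisymm
    · refine key α β γ hα hβ he fun ξ hξ => ?_
      have := hc ξ hξ
      omega
    · refine key β α γ hβ hα he.symm fun ξ hξ => ?_
      have hξ' : ξ ∈ dif α β := by
        rw [mem_dif] at hξ ⊢
        exact ⟨hξ.2.1, hξ.1, fun e => hξ.2.2 e.symm⟩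
      have := hc ξ hξ'
      omega

end Pool.Agent.Q179.NH
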