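import Mathlib

/-!
# Manifolds without the Hausdorff axiom, the long ray: definitions
-/

open Set Topology

namespace Pool.Agent.Q179.NH

/-- An `n`-manifold: a connected space in which every point has an open neighbourhood
homeomorphic to `ℝⁿ`.  No separation axiom is assumed. -/
structure IsManifoldNH (n : ℕ) (M : Type) [TopologicalSpace M] : Prop where
  connected : ConnectedSpace M
  euclidean : ∀ x : M, ∃ U : Set M, IsOpen U ∧ x ∈ U ∧
    Nonempty (U ≃ₜ EuclideanSpace ℝ (Fin n))

/-- Homogeneity. -/
def IsHomogeneous (M : Type) [TopologicalSpace M] : Prop :=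
  ∀ x y : M, ∃ h : M ≃ₜ M, h x = y

/-- The set of points `y ≠ z` which cannot be separated from `z` by disjoint open sets. -/
def NonSep {M : Type} [TopologicalSpace M] (z : M) : Set M :=
  {y | y ≠ z ∧ ∀ U V : Set M, IsOpen U → IsOpen V → y ∈ U → z ∈ V → (U ∩ V).Nonempty}

/-- The ordinal `ω₁`, as a well-ordered set. -/
abbrev W : Type := (Cardinal.aleph 1).ord.ToType

/-- `ω₁` with its order topology. -/
def OmegaOne : Type := W

noncomputable instance : LinearOrder OmegaOne := inferInstanceAs (LinearOrder W)

noncomputable instance : TopologicalSpace OmegaOne := Preorder.topology OmegaOne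

/-- The long ray `ω₁ × [0,1)` with the lexicographic order. -/
def LongRay : Type := W ×ₗ Set.Ico (0 : ℝ) 1

noncomputable instance : LinearOrder LongRay :=
  inferInstanceAs (LinearOrder (W ×ₗ Set.Ico (0 : ℝ) 1))

/-- The long ray carries the order topology. -/
noncomputable instance : TopologicalSpace LongRay := Preorder.topology LongRay

end Pool.Agent.Q179.NH
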