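import Pool.Agent.Q179.NH.Defs

/-!
# Gluing copies of a space; homogeneous extensions of manifolds
-/

open Set Topology

namespace Pool.Agent.Q179.NH

universe u v

section glue

variable {I : Type u} {Y : Type v} [TopologicalSpace Y]

/-- The topology on a space obtained by gluing copies of `Y` indexed by `I`. -/
@[reducible] def glueTop (s : Setoid (I × Y)) : TopologicalSpace (Quotient s) :=
  ⨆ i, TopologicalSpace.coinduced (fun p : Y => Quotient.mk s (i, p)) inferInstance

/-- The chart `Y → Quotient s` number `i`. -/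
def chart (s : Setoid (I × Y)) (i : I) (p : Y) : Quotient s := Quotient.mk s (i, p)

theorem isOpen_glue (s : Setoid (I × Y)) (O : Set (Quotient s)) :
    IsOpen[glueTop s] O ↔ ∀ i, IsOpen (chart s i ⁻¹' O) := by
  rw [isOpen_iSup_iff]
  rfl

theorem chart_surj (s : Setoid (I × Y)) (x : Quotient s) : ∃ i p, chart s i p = x := by
  obtain ⟨⟨i, p⟩, rfl⟩ := Quotient.exists_rep x
  exact ⟨i, p, rfl⟩

theorem chart_eq {s : Setoid (I × Y)} {i j : I} {p q : Y} :
    chart s i p = chart s j q ↔ s (i, p) (j, q) := Quotient.eq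

theorem chart_openEmbedding (s : Setoid (I × Y)) (hinj : ∀ i p q, s (i, p) (i, q) → p = q)
    (hopen : ∀ i j (O : Set Y), IsOpen O → IsOpen {q | ∃ p ∈ O, s (i, p) (j, q)}) (i : I) :
    @IsOpenEmbedding _ _ _ (glueTop s) (chart s i) := by
  let _ : TopologicalSpace (Quotient s) := glueTop s
  refine IsOpenEmbedding.of_continuous_injective_isOpenMap ?_ ?_ ?_
  · rw [continuous_def]
    intro O hO
    exact (isOpen_glue s O).1 hO i
  · intro p q hpq
    exact hinj i p q (chart_eq.1 hpq)
  · intro O hO
    rw [isOpen_glue]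
    intro j
    have : chart s j ⁻¹' (chart s i '' O) = {q | ∃ p ∈ O, s (i, p) (j, q)} := by
      ext q
      simp only [mem_preimage, mem_image, mem_ofPred_eq, chart_eq]
    rw [this]
    exact hopen i j O hO

end glue

/-- Every point of `X` lies in the range of an open embedding of `E`. -/
def Charted (E : Type u) [TopologicalSpace E] (X : Type v) [TopologicalSpace X] : Prop :=
  ∀ x : X, ∃ g : E → X, IsOpenEmbedding g ∧ x ∈ range g

theorem charted_glue {E : Type u} [TopologicalSpace E] {I : Type u} {Y : Type v}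
    [TopologicalSpace Y] (s : Setoid (I × Y)) (hY : Charted E Y)
    (hemb : ∀ i, @IsOpenEmbedding _ _ _ (glueTop s) (chart s i)) :
    @Charted E _ (Quotient s) (glueTop s) := by
  let _ : TopologicalSpace (Quotient s) := glueTop s
  intro x
  obtain ⟨i, p, rfl⟩ := chart_surj s x
  obtain ⟨g, hg, v, rfl⟩ := hY p
  exact ⟨chart s i ∘ g, (hemb i).comp hg, v, rfl⟩

section homog

variable {E : Type} [TopologicalSpace E] {X : Type} [TopologicalSpace X]

/-- Pairs of charts. -/
abbrev H (E X : Type) [TopologicalSpace E] [TopologicalSpace X] : Type :=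
  {f : E → X // IsOpenEmbedding f} × {f : E → X // IsOpenEmbedding f}

/-- One step of the partial action. -/
def Stp (h : H E X) (b : Bool) (x y : X) : Prop :=
  ∃ v, (if b then h.1.1 v else h.2.1 v) = x ∧ (if b then h.2.1 v else h.1.1 v) = y

/-- The partial action of words. -/
def Act : List (H E X × Bool) → X → X → Prop
  | [], x, y => x = y
  | a :: L, x, y => ∃ z, Act L x z ∧ Stp a.1 a.2 z y

theorem act_append (L₁ L₂ : List (H E X × Bool)) (x y : X) :
    Act (L₁ ++ L₂) x y ↔ ∃ z, Act L₂ x z ∧ Act L₁ z y := by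
  induction L₁ generalizing y with
  | nil =>
    simp only [List.nil_append, Act]
    exact ⟨fun h => ⟨y, h, rfl⟩, fun ⟨z, h, e⟩ => e ▸ h⟩
  | cons a L ih =>
    simp only [List.cons_append, Act]
    constructor
    · rintro ⟨z, hz, hs⟩
      obtain ⟨w, hw, hw'⟩ := (ih z).1 hz
      exact ⟨w, hw, z, hw', hs⟩
    · rintro ⟨w, hw, z, hz, hs⟩
      exact ⟨z, (ih z).2 ⟨w, hw, hz⟩, hs⟩

theorem stp_symm {h : H E X} {b : Bool} {x y : X} (hs : Stp h b x y) : Stp h (!b) y x := by
  obtain ⟨v, h1, h2⟩ := hs
  refine ⟨v, ?_, ?_⟩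
  · cases b <;> simpa using h2
  · cases b <;> simpa using h1

theorem stp_cancel {h : H E X} {b : Bool} {x y z : X} (h1 : Stp h (!b) x y)
    (h2 : Stp h b y z) : x = z := by
  obtain ⟨v, h3, h4⟩ := h1
  obtain ⟨w, h5, h6⟩ := h2
  cases b
  · simp only [Bool.not_false, if_true, Bool.false_eq_true, if_false] at h3 h4 h5 h6
    have : v = w := h.2.2.injective (h4.trans h5.symm)
    rw [← h3, ← h6, this]
  · simp only [Bool.not_true, if_true, Bool.false_eq_true, if_false] at h3 h4 h5 h6
    have : v = w := h.1.2.injective (h4.trans h5.symm)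
    rw [← h3, ← h6, this]

theorem act_invRev (L : List (H E X × Bool)) {x y : X} (h : Act L x y) :
    Act (FreeGroup.invRev L) y x := by
  induction L generalizing y with
  | nil => exact h.symm
  | cons a L ih =>
    obtain ⟨z, hz, hs⟩ := h
    rw [FreeGroup.invRev_cons, act_append]
    refine ⟨z, ?_, ih hz⟩
    exact ⟨y, rfl, stp_symm hs⟩

theorem act_step {L₁ L₂ : List (H E X × Bool)} (h : FreeGroup.Red.Step L₁ L₂) {x y : X}
    (ha : Act L₁ x y) : Act L₂ x y := by
  cases h with
  | @not A B a b =>
    rw [act_append] at ha ⊢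
    obtain ⟨z, ⟨z1, ⟨z2, hz2, hs2⟩, hs1⟩, hA⟩ := ha
    have : z2 = z := stp_cancel hs2 hs1
    exact ⟨z, this ▸ hz2, hA⟩

theorem act_red {L₁ L₂ : List (H E X × Bool)} (h : FreeGroup.Red L₁ L₂) {x y : X}
    (ha : Act L₁ x y) : Act L₂ x y := by
  induction h with
  | refl => exact ha
  | tail _ h ih => exact act_step h ih

theorem act_one {L : List (H E X × Bool)} (h : FreeGroup.mk L = 1) {x y : X}
    (ha : Act L x y) : x = y := by
  have h1 : FreeGroup.mk L = FreeGroup.mk [] := h
  obtain ⟨L', h2, h3⟩ := FreeGroup.Red.exact.1 h1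
  have h4 : L' = [] := FreeGroup.Red.nil_iff.1 h3
  subst h4
  exact act_red h2 ha

theorem isOpen_act (L : List (H E X × Bool)) {O : Set X} (hO : IsOpen O) :
    IsOpen {y | ∃ x ∈ O, Act L x y} := by
  induction L with
  | nil =>
    have : {y | ∃ x ∈ O, Act ([] : List (H E X × Bool)) x y} = O := by
      ext y
      simp [Act]
    rw [this]
    exact hO
  | cons a L ih =>
    have key : ∀ (f g : {f : E → X // IsOpenEmbedding f}) (S : Set X), IsOpen S →
        IsOpen {y | ∃ z ∈ S, ∃ v, f.1 v = z ∧ g.1 v = y} := by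
      intro f g S hS
      have : {y | ∃ z ∈ S, ∃ v, f.1 v = z ∧ g.1 v = y} = g.1 '' (f.1 ⁻¹' S) := by
        ext y
        constructor
        · rintro ⟨z, hz, v, rfl, rfl⟩
          exact ⟨v, hz, rfl⟩
        · rintro ⟨v, hv, rfl⟩
          exact ⟨f.1 v, hv, v, rfl, rfl⟩
      rw [this]
      exact g.2.isOpenMap _ (hS.preimage f.2.continuous)
    obtain ⟨⟨f, g⟩, b⟩ := a
    have : {y | ∃ x ∈ O, Act ((⟨f, g⟩, b) :: L) x y} =
        {y | ∃ z ∈ {z | ∃ x ∈ O, Act L x z}, Stp ⟨f, g⟩ b z y} := by
      ext y
      constructor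
      · rintro ⟨x, hx, z, hz, hs⟩
        exact ⟨z, ⟨x, hx, hz⟩, hs⟩
      · rintro ⟨z, ⟨x, hx, hz⟩, hs⟩
        exact ⟨x, hx, z, hz, hs⟩
    rw [this]
    cases b
    · simpa [Stp] using key g f _ ih
    · simpa [Stp] using key f g _ ih

/-- The gluing relation of the homogeneous extension. -/
def homSetoid (E X : Type) [TopologicalSpace E] [TopologicalSpace X] :
    Setoid (FreeGroup (H E X) × X) where
  r a b := ∃ L, FreeGroup.mk L = b.1⁻¹ * a.1 ∧ Act L a.2 b.2
  iseqv := by
    refine ⟨?_, ?_, ?_⟩
    · intro a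
      exact ⟨[], by rw [inv_mul_cancel]; rfl, rfl⟩
    · rintro a b ⟨L, h1, h2⟩
      refine ⟨FreeGroup.invRev L, ?_, act_invRev L h2⟩
      rw [← FreeGroup.inv_mk, h1, mul_inv_rev, inv_inv]
    · rintro a b c ⟨L, h1, h2⟩ ⟨L', h3, h4⟩
      refine ⟨L' ++ L, ?_, ?_⟩
      · rw [← FreeGroup.mul_mk, h1, h3]
        group
      · rw [act_append]
        exact ⟨b.2, h2, h4⟩

theorem homSetoid_iff {a b : FreeGroup (H E X)} {x y : X} :
    homSetoid E X (a, x) (b, y) ↔ ∃ L, FreeGroup.mk L = b⁻¹ * a ∧ Act L x y := Iff.rfl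

theorem hom_inj (a : FreeGroup (H E X)) (x y : X) (h : homSetoid E X (a, x) (a, y)) : x = y := by
  obtain ⟨L, h1, h2⟩ := homSetoid_iff.1 h
  rw [inv_mul_cancel] at h1
  exact act_one h1 h2

theorem hom_open (a b : FreeGroup (H E X)) (O : Set X) (hO : IsOpen O) :
    IsOpen {y | ∃ x ∈ O, homSetoid E X (a, x) (b, y)} := by
  have : {y | ∃ x ∈ O, homSetoid E X (a, x) (b, y)} =
      ⋃ L ∈ {L | FreeGroup.mk L = b⁻¹ * a}, {y | ∃ x ∈ O, Act L x y} := by
    ext y
    simp only [mem_ofPred_eq, mem_iUnion, exists_prop, homSetoid_iff]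
    constructor
    · rintro ⟨x, hx, L, h1, h2⟩
      exact ⟨L, h1, x, hx, h2⟩
    · rintro ⟨L, h1, x, hx, h2⟩
      exact ⟨x, hx, L, h1, h2⟩
  rw [this]
  exact isOpen_biUnion fun L _ => isOpen_act L hO

/-- Translation by a group element. -/
def trans (k : FreeGroup (H E X)) : Quotient (homSetoid E X) → Quotient (homSetoid E X) :=
  Quotient.map (fun a => (k * a.1, a.2)) (by
    rintro ⟨a, x⟩ ⟨b, y⟩ h
    obtain ⟨L, h1, h2⟩ := homSetoid_iff.1 h
    refine homSetoid_iff.2 ⟨L, ?_, h2⟩
    rw [h1]
    group)

theorem trans_chart (k a : FreeGroup (H E X)) (x : X) :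
    trans k (chart (homSetoid E X) a x) = chart (homSetoid E X) (k * a) x := rfl

theorem trans_continuous (k : FreeGroup (H E X)) :
    @Continuous _ _ (glueTop (homSetoid E X)) (glueTop (homSetoid E X)) (trans k) := by
  let _ : TopologicalSpace (Quotient (homSetoid E X)) := glueTop (homSetoid E X)
  rw [continuous_def]
  intro O hO
  rw [isOpen_glue]
  intro a
  have : chart (homSetoid E X) a ⁻¹' (trans k ⁻¹' O) = chart (homSetoid E X) (k * a) ⁻¹' O := rfl
  rw [this]
  exact (isOpen_glue _ O).1 hO (k * a)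

theorem trans_trans (k l : FreeGroup (H E X)) (x : Quotient (homSetoid E X)) :
    trans k (trans l x) = trans (k * l) x := by
  obtain ⟨a, p, rfl⟩ := chart_surj _ x
  rw [trans_chart, trans_chart, trans_chart, mul_assoc]

theorem trans_one (x : Quotient (homSetoid E X)) : trans 1 x = x := by
  obtain ⟨a, p, rfl⟩ := chart_surj _ x
  rw [trans_chart, one_mul]

/-- **Homogeneous extension.**  Every connected space `X` covered by open embedded copies of a
real vector space `E` is an open subspace of a homogeneous space with the same properties. -/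
theorem exists_homogeneous (E : Type) [TopologicalSpace E] [AddCommGroup E]
    [IsTopologicalAddGroup E] (X : Type) [TopologicalSpace X] [ConnectedSpace X]
    (hX : Charted E X) :
    ∃ (M : Type) (_ : TopologicalSpace M), ConnectedSpace M ∧ Charted E M ∧ IsHomogeneous M ∧
      ∃ f : X → M, IsOpenEmbedding f := by
  let s := homSetoid E X
  let _ : TopologicalSpace (Quotient s) := glueTop s
  have hemb : ∀ a, IsOpenEmbedding (chart s a) := fun a =>
    chart_openEmbedding s hom_inj hom_open a
  -- any two points are related by a pair of charts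
  have hpair : ∀ x y : X, ∃ h : H E X, Stp h true x y := by
    intro x y
    obtain ⟨f, hf, u, rfl⟩ := hX x
    obtain ⟨g, hg, v, rfl⟩ := hX y
    refine ⟨⟨⟨f, hf⟩, ⟨g ∘ (Homeomorph.addRight (v - u)), ?_⟩⟩, u, ?_, ?_⟩
    · exact hg.comp (Homeomorph.isOpenEmbedding _)
    · simp
    · simp
  have hrel : ∀ (a : FreeGroup (H E X)) (h : H E X) (x y : X), Stp h true x y →
      chart s (a * FreeGroup.of h) x = chart s a y := by
    intro a h x y hs
    rw [chart_eq]
    refine ⟨[(h, true)], ?_, x, rfl, hs⟩
    change FreeGroup.of h = a⁻¹ * (a * FreeGroup.of h)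
    group
  obtain ⟨x0⟩ : Nonempty X := inferInstance
  have hne : Nonempty (Quotient s) := ⟨chart s 1 x0⟩
  refine ⟨Quotient s, inferInstance, ?_, charted_glue s hX hemb, ?_, chart s 1, hemb 1⟩
  · -- connected
    have hrange : ∀ (a : FreeGroup (H E X)) (x y : X),
        connectedComponent (chart s a x) = connectedComponent (chart s a y) := by
      intro a x y
      apply connectedComponent_eq
      have h1 : IsPreconnected (range (chart s a)) :=
        isPreconnected_range (hemb a).continuous
      exact h1.subset_connectedComponent (mem_range_self x) (mem_range_self y)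
    have hgen : ∀ (a : FreeGroup (H E X)) (h : H E X),
        connectedComponent (chart s (a * FreeGroup.of h) x0) =
          connectedComponent (chart s a x0) := by
      intro a h
      have hE : Nonempty E := ⟨0⟩
      obtain ⟨v⟩ := hE
      have h1 := hrel a h (h.1.1 v) (h.2.1 v) ⟨v, by simp, by simp⟩
      rw [hrange _ x0 (h.1.1 v), h1, hrange a _ x0]
    have hall : ∀ (g a : FreeGroup (H E X)),
        connectedComponent (chart s (a * g) x0) = connectedComponent (chart s a x0) := by
      intro g
      induction g using FreeGroup.induction_on with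
      | C1 => intro a; rw [mul_one]
      | of h => intro a; exact hgen a h
      | inv_of h ih =>
        intro a
        have := ih (a * (FreeGroup.of h)⁻¹)
        rw [mul_assoc, inv_mul_cancel, mul_one] at this
        exact this.symm
      | mul g g' ih ih' =>
        intro a
        rw [← mul_assoc, ih', ih]
    rw [connectedSpace_iff_connectedComponent]
    refine ⟨chart s 1 x0, ?_⟩
    rw [eq_univ_iff_forall]
    intro y
    obtain ⟨a, p, rfl⟩ := chart_surj s y
    have h1 : connectedComponent (chart s a p) = connectedComponent (chart s 1 x0) := by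
      rw [hrange a p x0, ← hall a 1, one_mul]
    rw [← h1]
    exact mem_connectedComponent
  · -- homogeneous
    intro x y
    obtain ⟨a, p, rfl⟩ := chart_surj s x
    obtain ⟨b, q, rfl⟩ := chart_surj s y
    obtain ⟨h, hs⟩ := hpair p q
    let k : FreeGroup (H E X) := b * FreeGroup.of h * a⁻¹
    let e : Quotient s ≃ₜ Quotient s :=
      { toFun := trans k
        invFun := trans k⁻¹
        left_inv := fun x => by rw [trans_trans, inv_mul_cancel, trans_one]
        right_inv := fun x => by rw [trans_trans, mul_inv_cancel, trans_one]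
        continuous_toFun := trans_continuous k
        continuous_invFun := trans_continuous k⁻¹ }
    refine ⟨e, ?_⟩
    change trans k (chart s a p) = chart s b q
    rw [trans_chart]
    have : k * a = b * FreeGroup.of h := by
      simp only [k]
      group
    rw [this]
    exact hrel b h p q hs

end homog

end Pool.Agent.Q179.NH
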