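import Pool.Agent.Q179.NH.Glue
import Pool.Agent.Helper330.DPK.Coh

/-!
# The long ray is locally a real line
-/

open Set Topology

namespace Pool.Agent.Q179.NH

open Pool.Agent.Helper330.DPK

instance : OrderTopology LongRay := ⟨rfl⟩

instance : OrderTopology OmegaOne := ⟨rfl⟩

/-- The point of the long ray with coordinates `a` and `t`. -/
def pt (a : W) (t : Ico (0 : ℝ) 1) : LongRay := toLex (a, t)

/-- First coordinate. -/
def fc (p : LongRay) : W := (ofLex p).1

/-- Second coordinate. -/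
def sc (p : LongRay) : Ico (0 : ℝ) 1 := (ofLex p).2

theorem pt_fc_sc (p : LongRay) : pt (fc p) (sc p) = p := rfl

theorem fc_pt (a : W) (t : Ico (0 : ℝ) 1) : fc (pt a t) = a := rfl

theorem sc_pt (a : W) (t : Ico (0 : ℝ) 1) : sc (pt a t) = t := rfl

theorem long_lt {p q : LongRay} : p < q ↔ fc p < fc q ∨ (fc p = fc q ∧ sc p < sc q) :=
  Prod.Lex.toLex_lt_toLex

theorem long_ext {p q : LongRay} (h1 : fc p = fc q) (h2 : sc p = sc q) : p = q := by
  have := congrArg₂ pt h1 h2
  exact this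

theorem exists_w0 : ∃ w : W, ∀ x, w ≤ x := by
  obtain ⟨w, -, hw⟩ := WellFounded.wellFounded_iff_has_min.1 (wellFounded_lt (α := W))
    univ univ_nonempty
  exact ⟨w, fun x => not_lt.1 (hw x (mem_univ x))⟩

/-- The least element of `ω₁`. -/
noncomputable def w0 : W := exists_w0.choose

theorem w0_le (x : W) : w0 ≤ x := exists_w0.choose_spec x

/-- The number `0` of `[0,1)`. -/
def zr : Ico (0 : ℝ) 1 := ⟨0, le_rfl, one_pos⟩

theorem zr_le (t : Ico (0 : ℝ) 1) : zr ≤ t := t.2.1

/-- The origin of the long ray. -/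
noncomputable def z0 : LongRay := pt w0 zr

theorem z0_le (p : LongRay) : z0 ≤ p := by
  by_contra h
  rcases long_lt.1 (not_le.1 h) with h1 | ⟨-, h1⟩
  · exact absurd h1 (not_lt.2 (w0_le _))
  · exact absurd h1 (not_lt.2 (zr_le _))

theorem lt_pt_zr {p : LongRay} {a : W} : p < pt a zr ↔ fc p < a := by
  rw [long_lt]
  constructor
  · rintro (h | ⟨-, h⟩)
    · exact h
    · exact absurd h (not_lt.2 (zr_le _))
  · intro h
    exact Or.inl h

theorem pt_zr_le {p : LongRay} {a : W} : pt a zr ≤ p ↔ a ≤ fc p := by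
  rw [← not_lt, lt_pt_zr, not_lt]

/-! ### Weights -/

/-- The weight of a set of natural numbers. -/
noncomputable def G (B : Set ℕ) : ℝ := ∑' n, B.indicator (fun n => ((1 : ℝ) / 2) ^ n) n

theorem summ (B : Set ℕ) : Summable (B.indicator fun n => ((1 : ℝ) / 2) ^ n) :=
  summable_geometric_two.indicator B

theorem G_mono {B C : Set ℕ} (h : B ⊆ C) : G B ≤ G C :=
  (summ B).tsum_le_tsum (fun n => Set.indicator_le_indicator_of_subset h
    (fun _ => by positivity) n) (summ C)

theorem G_empty : G ∅ = 0 := by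
  simp [G]

theorem G_insert {B : Set ℕ} {n : ℕ} (h : n ∉ B) : G (insert n B) = G B + (1 / 2) ^ n := by
  classical
  have h1 : ∀ k, (insert n B).indicator (fun n => ((1 : ℝ) / 2) ^ n) k =
      B.indicator (fun n => ((1 : ℝ) / 2) ^ n) k + if k = n then (1 / 2) ^ n else 0 := by
    intro k
    by_cases hk : k = n
    · subst hk
      simp [Set.indicator, h]
    · simp only [Set.indicator, mem_insert_iff, hk, false_or, if_false, add_zero]
  have h2 : Summable fun k => if k = n then ((1 : ℝ) / 2) ^ n else 0 :=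
    (hasSum_ite_eq n _).summable
  unfold G
  rw [tsum_congr h1, (summ B).tsum_add h2, tsum_ite_eq]

theorem G_approx {B : Set ℕ} {s : ℝ} (h : s < G B) :
    ∃ F : Finset ℕ, (∀ n ∈ F, n ∈ B) ∧ s < G (F : Set ℕ) := by
  classical
  have h1 := ((summ B).hasSum.eventually (lt_mem_nhds h)).exists
  obtain ⟨F, hF⟩ := h1
  refine ⟨F.filter (· ∈ B), fun n hn => (Finset.mem_filter.1 hn).2, lt_of_lt_of_le hF ?_⟩
  have h2 : G ((F.filter (· ∈ B) : Finset ℕ) : Set ℕ) =
      ∑ n ∈ F, B.indicator (fun n => ((1 : ℝ) / 2) ^ n) n := by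
    unfold G
    rw [tsum_eq_sum (s := F)]
    · refine Finset.sum_congr rfl fun n hn => ?_
      simp [Set.indicator, hn]
    · intro n hn
      simp [Set.indicator, hn]
  rw [h2]

theorem exists_coord (a : W) : ∃ (f : LongRay → ℝ) (w : ℝ), f z0 = 0 ∧
    (∀ p q, fc p < a → fc q < a → p < q → f p < f q) ∧
    (∀ p, fc p < a → f p < w) ∧
    (∀ s, 0 ≤ s → s < w → ∃ p, fc p < a ∧ f p = s) := by
  classical
  obtain ⟨e, he⟩ := Set.countable_iff_exists_injOn.1 (Coh.countable_Iio a)
  have hle : ∀ γ < a, G (e '' Iic γ) = G (e '' Iio γ) + (1 / 2) ^ e γ := by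
    intro γ hγ
    rw [← G_insert]
    · congr 1
      ext n
      simp only [mem_image, mem_Iic, mem_insert_iff, mem_Iio]
      constructor
      · rintro ⟨x, hx, rfl⟩
        rcases hx.eq_or_lt with h | h
        · exact Or.inl (h ▸ rfl)
        · exact Or.inr ⟨x, h, rfl⟩
      · rintro (rfl | ⟨x, hx, rfl⟩)
        · exact ⟨γ, le_rfl, rfl⟩
        · exact ⟨x, hx.le, rfl⟩
    · rintro ⟨x, hx, hxe⟩
      have hx' : x < γ := hx
      have := he (hx'.trans hγ) hγ hxe
      exact absurd (this ▸ hx') (lt_irrefl _)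
  have hpos : ∀ γ, (0 : ℝ) < (1 / 2) ^ e γ := fun γ => by positivity
  refine ⟨fun p => G (e '' Iio (fc p)) + (sc p : ℝ) * (1 / 2) ^ e (fc p), G (e '' Iio a),
    ?_, ?_, ?_, ?_⟩
  · have h1 : Iio (fc z0) = ∅ := by
      ext x
      simp only [mem_Iio, mem_empty_iff_false, iff_false, not_lt]
      exact w0_le x
    beta_reduce
    rw [h1, image_empty, G_empty]
    have : ((sc z0 : Ico (0 : ℝ) 1) : ℝ) = 0 := rfl
    rw [this]
    ring
  · intro p q hp hq hpq
    beta_reduce
    rcases long_lt.1 hpq with h | ⟨h1, h2⟩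
    · have h3 : G (e '' Iic (fc p)) ≤ G (e '' Iio (fc q)) :=
        G_mono (image_mono fun x hx => lt_of_le_of_lt hx h)
      rw [hle _ hp] at h3
      have h4 : ((sc p : Ico (0 : ℝ) 1) : ℝ) * (1 / 2) ^ e (fc p) < (1 / 2) ^ e (fc p) := by
        have := (sc p).2.2
        nlinarith [hpos (fc p)]
      have h5 : 0 ≤ ((sc q : Ico (0 : ℝ) 1) : ℝ) * (1 / 2) ^ e (fc q) :=
        mul_nonneg (sc q).2.1 (hpos _).le
      linarith
    · have h2' : ((sc p : Ico (0 : ℝ) 1) : ℝ) < (sc q : Ico (0 : ℝ) 1) := h2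
      rw [h1]
      have := mul_lt_mul_of_pos_right h2' (hpos (fc q))
      linarith
  · intro p hp
    have h3 : G (e '' Iic (fc p)) ≤ G (e '' Iio a) :=
      G_mono (image_mono fun x hx => lt_of_le_of_lt hx hp)
    rw [hle _ hp] at h3
    have h4 : ((sc p : Ico (0 : ℝ) 1) : ℝ) * (1 / 2) ^ e (fc p) < (1 / 2) ^ e (fc p) := by
      have := (sc p).2.2
      nlinarith [hpos (fc p)]
    linarith
  · intro s hs0 hsw
    have key : ∀ c ≤ a, s < G (e '' Iio c) → ∃ γ, γ < c ∧ s < G (e '' Iic γ) := by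
      intro c hc hsc
      obtain ⟨F, hF, hsF⟩ := G_approx hsc
      have hFne : F.Nonempty := by
        rw [Finset.nonempty_iff_ne_empty]
        rintro rfl
        rw [Finset.coe_empty, G_empty] at hsF
        linarith
      have hF' : ∀ n ∈ F, ∃ x, x < c ∧ e x = n := fun n hn => hF n hn
      choose! x hx hxe using hF'
      obtain ⟨n0, hn0, hmax⟩ := F.exists_max_image x hFne
      refine ⟨x n0, hx n0 hn0, lt_of_lt_of_le hsF (G_mono ?_)⟩
      intro n hn
      exact ⟨x n, hmax n hn, hxe n hn⟩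
    obtain ⟨γ, ⟨hγa, hγ⟩, hmin⟩ := WellFounded.wellFounded_iff_has_min.1
      (wellFounded_lt (α := W)) {γ | γ < a ∧ s < G (e '' Iic γ)} (key a le_rfl hsw)
    have h1 : G (e '' Iio γ) ≤ s := by
      by_contra h
      push Not at h
      obtain ⟨γ', h2, h3⟩ := key γ hγa.le h
      exact hmin γ' ⟨h2.trans hγa, h3⟩ h2
    rw [hle γ hγa] at hγ
    have hp := hpos γ
    refine ⟨pt γ ⟨(s - G (e '' Iio γ)) / (1 / 2) ^ e γ, ?_, ?_⟩, hγa, ?_⟩
    · exact div_nonneg (by linarith) hp.le
    · rw [div_lt_one hp]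
      linarith
    · change G (e '' Iio γ) + (s - G (e '' Iio γ)) / (1 / 2) ^ e γ * (1 / 2) ^ e γ = s
      rw [div_mul_cancel₀ _ hp.ne']
      ring

/-! ### The open long ray -/

/-- The open long ray. -/
abbrev Lo : Type := Ioi z0

/-- First coordinate. -/
def fo (p : Lo) : W := fc p.1

theorem isOpen_fo (a : W) : IsOpen {p : Lo | fo p < a} := by
  have : {p : Lo | fo p < a} = Subtype.val ⁻¹' Iio (pt a zr) := by
    ext p
    exact lt_pt_zr.symm
  rw [this]
  exact isOpen_Iio.preimage continuous_subtype_val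

theorem exists_gt_w (a : W) : ∃ b : W, a < b := exists_gt a

theorem exists_between' {p q : LongRay} (h : p < q) : ∃ r, p < r ∧ r < q := by
  rcases long_lt.1 h with h1 | ⟨h1, h2⟩
  · obtain ⟨t, ht1, ht2⟩ := exists_between (sc p).2.2
    refine ⟨pt (fc p) ⟨t, (sc p).2.1.trans ht1.le, ht2⟩, ?_, ?_⟩
    · exact long_lt.2 (Or.inr ⟨rfl, ht1⟩)
    · exact long_lt.2 (Or.inl h1)
  · have h2' : ((sc p : Ico (0 : ℝ) 1) : ℝ) < (sc q : Ico (0 : ℝ) 1) := h2
    obtain ⟨t, ht1, ht2⟩ := exists_between h2'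
    refine ⟨pt (fc p) ⟨t, (sc p).2.1.trans ht1.le, ht2.trans (sc q).2.2⟩, ?_, ?_⟩
    · exact long_lt.2 (Or.inr ⟨rfl, ht1⟩)
    · exact long_lt.2 (Or.inr ⟨h1, ht2⟩)

/-- The initial pieces of the open long ray are real lines. -/
theorem exists_line (y : Lo) {a : W} (ha : fo y < a) :
    Nonempty ({p : Lo | fo p < a} ≃ₜ ℝ) := by
  classical
  obtain ⟨f, w, hf0, hmono, hlt, hsurj⟩ := exists_coord a
  let U : Set Lo := {p : Lo | fo p < a}
  have hU : OrdConnected U := by
    refine ⟨fun p _ q hq r hr => ?_⟩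
    have h1 : r.1 ≤ q.1 := hr.2
    change fc r.1 < a
    have h2 : q.1 < pt a zr := lt_pt_zr.2 hq
    exact lt_pt_zr.1 (lt_of_le_of_lt h1 h2)
  have hw0a : fc z0 < a := lt_of_le_of_lt (w0_le _) ha
  have hpos : ∀ p : Lo, fo p < a → 0 < f p.1 := by
    intro p hp
    rw [← hf0]
    exact hmono _ _ hw0a hp p.2
  have hw : 0 < w := (hpos y ha).trans (hlt _ ha)
  have hmem : ∀ p : U, 2 * f p.1.1 / w - 1 ∈ Ioo (-1 : ℝ) 1 := by
    intro p
    have h1 := hpos p.1 p.2
    have h2 := hlt p.1.1 p.2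
    constructor
    · have : 0 < 2 * f p.1.1 / w := by positivity
      linarith
    · have : 2 * f p.1.1 / w < 2 := by
        rw [div_lt_iff₀ hw]
        linarith
      linarith
  let u : U → Ioo (-1 : ℝ) 1 := fun p => ⟨2 * f p.1.1 / w - 1, hmem p⟩
  have hu : StrictMono u := by
    intro p q hpq
    have h1 : f p.1.1 < f q.1.1 := hmono _ _ p.2 q.2 hpq
    change 2 * f p.1.1 / w - 1 < 2 * f q.1.1 / w - 1
    have := div_lt_div_of_pos_right (show 2 * f p.1.1 < 2 * f q.1.1 by linarith) hw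
    linarith
  have hus : Function.Surjective u := by
    rintro ⟨s, hs1, hs2⟩
    have h1 : 0 < w * (s + 1) / 2 := by
      have : 0 < s + 1 := by linarith
      positivity
    have h2 : w * (s + 1) / 2 < w := by nlinarith
    obtain ⟨p, hp, hps⟩ := hsurj _ h1.le h2
    have hp0 : z0 < p := by
      rcases (z0_le p).eq_or_lt with h | h
      · rw [← h, hf0] at hps
        linarith
      · exact h
    refine ⟨⟨⟨p, hp0⟩, hp⟩, ?_⟩
    apply Subtype.ext
    change 2 * f p / w - 1 = s
    rw [hps]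
    field_simp
    ring
  let e : U ≃o Ioo (-1 : ℝ) 1 := StrictMono.orderIsoOfSurjective u hu hus
  exact ⟨(e.trans (orderIsoIooNegOneOne ℝ).symm).toHomeomorph⟩

theorem charted_Lo : Charted ℝ Lo := by
  intro y
  obtain ⟨a, ha⟩ := exists_gt_w (fo y)
  obtain ⟨e⟩ := exists_line y ha
  refine ⟨Subtype.val ∘ e.symm, ?_, e ⟨y, ha⟩, ?_⟩
  · exact (isOpen_fo a).isOpenEmbedding_subtypeVal.comp e.symm.isOpenEmbedding
  · simp

theorem exists_Lo : Nonempty Lo := by
  obtain ⟨a, ha⟩ := exists_gt_w w0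
  exact ⟨⟨pt a zr, long_lt.2 (Or.inl ha)⟩⟩

instance : ConnectedSpace Lo := by
  have h1 : IsPreconnected (univ : Set Lo) := by
    refine isPreconnected_of_forall_pair fun x _ y _ => ?_
    obtain ⟨a, ha⟩ := exists_gt_w (max (fo x) (fo y))
    have hx : fo x < a := lt_of_le_of_lt (le_max_left _ _) ha
    have hy : fo y < a := lt_of_le_of_lt (le_max_right _ _) ha
    obtain ⟨e⟩ := exists_line x hx
    refine ⟨{p | fo p < a}, subset_univ _, hx, hy, ?_⟩
    have h2 : range (Subtype.val ∘ e.symm) = {p : Lo | fo p < a} := by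
      rw [range_comp, e.symm.surjective.range_eq, image_univ, Subtype.range_coe]
    rw [← h2]
    exact isPreconnected_range (continuous_subtype_val.comp e.symm.continuous)
  have h2 : Nonempty Lo := exists_Lo
  exact { isPreconnected_univ := h1, toNonempty := h2 }

/-! ### Strips -/

/-- The open unit interval. -/
abbrev I01 : Type := Ioo (0 : ℝ) 1

theorem lam_aux (δ : W) (t : I01) : z0 < pt δ ⟨t.1, t.2.1.le, t.2.2⟩ := by
  rcases (w0_le δ).eq_or_lt with h | h
  · exact long_lt.2 (Or.inr ⟨h, t.2.1⟩)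
  · exact long_lt.2 (Or.inl h)

/-- The open interval above `δ`. -/
noncomputable def lam (δ : W) (t : I01) : Lo := ⟨pt δ ⟨t.1, t.2.1.le, t.2.2⟩, lam_aux δ t⟩

theorem fo_lam (δ : W) (t : I01) : fo (lam δ t) = δ := rfl

theorem lam_mono (δ : W) : StrictMono (lam δ) := by
  intro s t hst
  change pt δ _ < pt δ _
  exact long_lt.2 (Or.inr ⟨rfl, hst⟩)

theorem range_lam (δ : W) : range (lam δ) = {p : Lo | pt δ zr < p.1 ∧ fc p.1 ≤ δ} := by
  ext p
  constructor
  · rintro ⟨t, rfl⟩
    exact ⟨long_lt.2 (Or.inr ⟨rfl, t.2.1⟩), le_rfl⟩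
  · rintro ⟨h1, h2⟩
    rcases long_lt.1 h1 with h3 | ⟨h3, h4⟩
    · exact absurd h3 (not_lt.2 h2)
    · refine ⟨⟨sc p.1, h4, (sc p.1).2.2⟩, ?_⟩
      apply Subtype.ext
      exact long_ext h3 rfl

theorem exists_succ_w (δ : W) : ∃ δ' : W, ∀ x, x < δ' ↔ x ≤ δ := by
  obtain ⟨δ', h1, h2⟩ := WellFounded.wellFounded_iff_has_min.1 (wellFounded_lt (α := W))
    {x | δ < x} (exists_gt_w δ)
  refine ⟨δ', fun x => ⟨fun hx => ?_, fun hx => lt_of_le_of_lt hx h1⟩⟩
  by_contra h
  exact h2 x (not_le.1 h) hx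

theorem isOpen_range_lam (δ : W) : IsOpen (range (lam δ)) := by
  rw [range_lam]
  obtain ⟨δ', hδ'⟩ := exists_succ_w δ
  have : {p : Lo | pt δ zr < p.1 ∧ fc p.1 ≤ δ} =
      Subtype.val ⁻¹' (Ioi (pt δ zr) ∩ Iio (pt δ' zr)) := by
    ext p
    simp only [mem_ofPred_eq, mem_preimage, mem_inter_iff, mem_Ioi, mem_Iio, lt_pt_zr, hδ']
  rw [this]
  exact (isOpen_Ioi.inter isOpen_Iio).preimage continuous_subtype_val

theorem lam_openEmbedding (δ : W) : IsOpenEmbedding (lam δ) := by
  refine ⟨(lam_mono δ).isEmbedding_of_ordConnected ?_, isOpen_range_lam δ⟩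
  rw [range_lam]
  refine ⟨fun p hp q hq r hr => ⟨lt_of_lt_of_le hp.1 hr.1, ?_⟩⟩
  obtain ⟨δ', hδ'⟩ := exists_succ_w δ
  have h1 : q.1 < pt δ' zr := lt_pt_zr.2 ((hδ' _).2 hq.2)
  have h2 : r.1 ≤ q.1 := hr.2
  exact (hδ' _).1 (lt_pt_zr.1 (lt_of_le_of_lt h2 h1))

/-- Points of the open interval above `fo y` come arbitrarily close to `y`. -/
theorem exists_lam_near (y : Lo) {V : Set Lo} (hV : IsOpen V) (hy : y ∈ V) :
    ∃ t : I01, lam (fo y) t ∈ V := by
  obtain ⟨V', hV', rfl⟩ := isOpen_induced_iff.1 hV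
  let κ : Ico (0 : ℝ) 1 → LongRay := fun t => pt (fo y) t
  have hκ : StrictMono κ := fun s t hst => long_lt.2 (Or.inr ⟨rfl, hst⟩)
  have hrange : range κ = {p : LongRay | fc p = fo y} := by
    ext p
    constructor
    · rintro ⟨t, rfl⟩
      rfl
    · intro hp
      exact ⟨sc p, long_ext hp.symm rfl⟩
  have hemb : IsEmbedding κ := by
    refine hκ.isEmbedding_of_ordConnected ?_
    rw [hrange]
    refine ⟨fun p hp q hq r hr => ?_⟩
    have hp' : fc p = fo y := hp
    have hq' : fc q = fo y := hq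
    have h1 : fo y ≤ fc r := by
      rw [← hp']
      by_contra h
      exact absurd (long_lt.2 (Or.inl (not_le.1 h))) (not_lt.2 hr.1)
    have h2 : fc r ≤ fo y := by
      rw [← hq']
      by_contra h
      exact absurd (long_lt.2 (Or.inl (not_le.1 h))) (not_lt.2 hr.2)
    exact le_antisymm h2 h1
  have h1 : IsOpen (κ ⁻¹' V') := hV'.preimage hemb.continuous
  have h2 : sc y.1 ∈ κ ⁻¹' V' := hy
  obtain ⟨O, hO, hOeq⟩ := isOpen_induced_iff.1 h1
  have h3 : ((sc y.1 : Ico (0 : ℝ) 1) : ℝ) ∈ O := by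
    have : sc y.1 ∈ Subtype.val ⁻¹' O := by
      rw [hOeq]
      exact h2
    exact this
  obtain ⟨ε, hε, hball⟩ := Metric.isOpen_iff.1 hO _ h3
  have h4 : ((sc y.1 : Ico (0 : ℝ) 1) : ℝ) < 1 := (sc y.1).2.2
  have h5 : (0 : ℝ) ≤ ((sc y.1 : Ico (0 : ℝ) 1) : ℝ) := (sc y.1).2.1
  obtain ⟨t, ht1, ht2⟩ := exists_between
    (show ((sc y.1 : Ico (0 : ℝ) 1) : ℝ) < min 1 (((sc y.1 : Ico (0 : ℝ) 1) : ℝ) + ε) by
      rw [lt_min_iff]
      exact ⟨h4, by linarith⟩)
  have h6 : t < 1 := lt_of_lt_of_le ht2 (min_le_left _ _)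
  have h7 : t < ((sc y.1 : Ico (0 : ℝ) 1) : ℝ) + ε := lt_of_lt_of_le ht2 (min_le_right _ _)
  refine ⟨⟨t, by linarith, h6⟩, ?_⟩
  have h8 : (⟨t, by linarith, h6⟩ : Ico (0 : ℝ) 1) ∈ κ ⁻¹' V' := by
    rw [← hOeq]
    apply hball
    rw [Metric.mem_ball, Real.dist_eq, abs_lt]
    constructor <;> linarith
  exact h8

/-! ### Copies of the long ray and of `ω₁` -/

/-- An embedding of the long ray into the open long ray. -/
theorem exists_long_emb : ∃ f : LongRay → Lo, IsEmbedding f := by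
  classical
  let g : LongRay → LongRay := fun p =>
    if fc p = w0 then pt w0 ⟨(1 + (sc p : ℝ)) / 2, by
      have := (sc p).2.1
      have := (sc p).2.2
      constructor <;> linarith⟩ else p
  have hgz : ∀ p, z0 < g p := by
    intro p
    by_cases h : fc p = w0
    · simp only [g, h, if_true]
      refine long_lt.2 (Or.inr ⟨rfl, ?_⟩)
      change (0 : ℝ) < (1 + (sc p : ℝ)) / 2
      have := (sc p).2.1
      linarith
    · simp only [g, h, if_false]
      exact long_lt.2 (Or.inl (lt_of_le_of_ne (w0_le _) (Ne.symm h)))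
  have hfc : ∀ p, fc (g p) = fc p := by
    intro p
    by_cases h : fc p = w0
    · simp only [g, h, if_true]
      rfl
    · simp only [g, h, if_false]
  have hmono : StrictMono g := by
    intro p q hpq
    rcases long_lt.1 hpq with h | ⟨h1, h2⟩
    · refine long_lt.2 (Or.inl ?_)
      rw [hfc, hfc]
      exact h
    · by_cases h : fc p = w0
      · have h' : fc q = w0 := h1 ▸ h
        simp only [g, h, h', if_true]
        refine long_lt.2 (Or.inr ⟨rfl, ?_⟩)
        have h2' : ((sc p : Ico (0 : ℝ) 1) : ℝ) < (sc q : Ico (0 : ℝ) 1) := h2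
        change (1 + ((sc p : Ico (0 : ℝ) 1) : ℝ)) / 2 < (1 + ((sc q : Ico (0 : ℝ) 1) : ℝ)) / 2
        linarith
      · have h' : ¬ fc q = w0 := h1 ▸ h
        simp only [g, h, h', if_false]
        exact hpq
  let f : LongRay → Lo := fun p => ⟨g p, hgz p⟩
  have hf : StrictMono f := fun p q h => hmono h
  let half : Ico (0 : ℝ) 1 := ⟨1 / 2, by norm_num, by norm_num⟩
  have hrange : range f = {p : Lo | pt w0 half ≤ p.1} := by
    ext p
    constructor
    · rintro ⟨q, rfl⟩
      change pt w0 half ≤ g q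
      by_cases h : fc q = w0
      · simp only [g, h, if_true]
        by_contra hcon
        rcases long_lt.1 (not_le.1 hcon) with h1 | ⟨-, h1⟩
        · exact lt_irrefl _ h1
        · have h1' : (1 + ((sc q : Ico (0 : ℝ) 1) : ℝ)) / 2 < 1 / 2 := h1
          have := (sc q).2.1
          linarith
      · simp only [g, h, if_false]
        exact (long_lt.2 (Or.inl (lt_of_le_of_ne (w0_le _) (Ne.symm h)))).le
    · intro hp
      have hp' : pt w0 half ≤ p.1 := hp
      by_cases h : fc p.1 = w0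
      · have h1 : (1 / 2 : ℝ) ≤ (sc p.1 : ℝ) := by
          by_contra hcon
          push Not at hcon
          exact absurd (long_lt.2 (Or.inr ⟨h, hcon⟩)) (not_lt.2 hp')
        have h2 := (sc p.1).2.2
        refine ⟨pt w0 ⟨2 * (sc p.1 : ℝ) - 1, by constructor <;> linarith⟩, ?_⟩
        apply Subtype.ext
        change g _ = p.1
        simp only [g, fc_pt, sc_pt, if_true]
        refine long_ext h.symm ?_
        apply Subtype.ext
        change (1 + (2 * ((sc p.1 : Ico (0 : ℝ) 1) : ℝ) - 1)) / 2 = _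
        ring
      · refine ⟨p.1, ?_⟩
        apply Subtype.ext
        change g p.1 = p.1
        simp only [g, h, if_false]
  refine ⟨f, hf.isEmbedding_of_ordConnected ?_⟩
  rw [hrange]
  exact ⟨fun p hp q _ r hr => le_trans (show pt w0 half ≤ p.1 from hp) hr.1⟩

/-- `ω₁` embeds in the long ray. -/
theorem exists_omega_emb : ∃ f : OmegaOne → LongRay, IsEmbedding f := by
  let f : OmegaOne → LongRay := fun a => pt a zr
  have hle : ∀ a b : OmegaOne, f a < f b ↔ a < b := fun a b => lt_pt_zr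
  have hinj : Function.Injective f := by
    intro a b h
    exact congrArg fc h
  refine ⟨f, ⟨⟨?_⟩, hinj⟩⟩
  apply le_antisymm
  · rw [← continuous_iff_le_induced]
    rw [OrderTopology.topology_eq_generate_intervals (α := LongRay), continuous_generateFrom_iff]
    rintro s ⟨p, rfl | rfl⟩
    · have : f ⁻¹' Ioi p = Ioi (show OmegaOne from fc p) := by
        ext a
        change p < pt a zr ↔ fc p < a
        exact lt_pt_zr
      rw [this]
      exact isOpen_Ioi
    · obtain ⟨δ', hδ'⟩ := exists_succ_w (fc p)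
      by_cases h : zr < sc p
      · have : f ⁻¹' Iio p = Iio (show OmegaOne from δ') := by
          ext a
          change pt a zr < p ↔ a < δ'
          constructor
          · intro ha
            rcases long_lt.1 ha with h1 | ⟨h1, -⟩
            · exact (hδ' a).2 (show (a : W) ≤ fc p from le_of_lt h1)
            · exact (hδ' a).2 (le_of_eq h1)
          · intro ha
            rcases ((hδ' a).1 ha).eq_or_lt with h1 | h1
            · exact long_lt.2 (Or.inr ⟨h1, h⟩)
            · exact long_lt.2 (Or.inl h1)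
        rw [this]
        exact isOpen_Iio
      · have : f ⁻¹' Iio p = Iio (show OmegaOne from fc p) := by
          ext a
          change pt a zr < p ↔ a < fc p
          constructor
          · intro ha
            rcases long_lt.1 ha with h1 | ⟨-, h1⟩
            · exact h1
            · exact absurd h1 h
          · intro ha
            exact long_lt.2 (Or.inl ha)
        rw [this]
        exact isOpen_Iio
  · rw [OrderTopology.topology_eq_generate_intervals (α := OmegaOne)]
    apply le_generateFrom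
    rintro s ⟨a, rfl | rfl⟩
    · refine isOpen_induced_iff.2 ⟨Ioi (f a), isOpen_Ioi, ?_⟩
      ext b
      exact hle a b
    · refine isOpen_induced_iff.2 ⟨Iio (f a), isOpen_Iio, ?_⟩
      ext b
      exact hle b a

end Pool.Agent.Q179.NH
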