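import Pool.Agent.Q179.NH.Long
import Pool.Agent.Q179.NH.Comb

/-!
# A non-Hausdorff surface with a long ray inseparable from a point
-/

open Set Topology

namespace Pool.Agent.Q179.NH

/-- The surface (open long ray) × ℝ. -/
abbrev Sg : Type := Lo × ℝ

/-- Heights. -/
noncomputable def ht (j : ℕ) (s : I01) : ℝ := (1 / 2) ^ (j + 1) * (1 + s.1)

theorem ht_gt (j : ℕ) (s : I01) : (1 / 2 : ℝ) ^ (j + 1) < ht j s := by
  have h1 : (0 : ℝ) < (1 / 2) ^ (j + 1) := by positivity
  have h2 := s.2.1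
  unfold ht
  nlinarith

theorem ht_lt (j : ℕ) (s : I01) : ht j s < (1 / 2 : ℝ) ^ j := by
  have h1 : (0 : ℝ) < (1 / 2) ^ j := by positivity
  have h2 := s.2.2
  unfold ht
  rw [pow_succ]
  nlinarith

theorem ht_pos (j : ℕ) (s : I01) : 0 < ht j s := lt_trans (by positivity) (ht_gt j s)

theorem ht_inj {j j' : ℕ} {s s' : I01} (h : ht j s = ht j' s') : j = j' := by
  have key : ∀ {j j' : ℕ} {s s' : I01}, ht j s = ht j' s' → ¬ j < j' := by
    intro j j' s s' h hlt
    have h1 := ht_gt j s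
    have h2 := ht_lt j' s'
    have h3 : (1 / 2 : ℝ) ^ j' ≤ (1 / 2) ^ (j + 1) :=
      pow_le_pow_of_le_one (by norm_num) (by norm_num) hlt
    linarith
  exact le_antisymm (not_lt.1 (key h.symm)) (not_lt.1 (key h))

theorem ht_openEmbedding (j : ℕ) : IsOpenEmbedding (ht j) := by
  have h0 : ((1 : ℝ) / 2) ^ (j + 1) ≠ 0 := by positivity
  have h1 : ht j = (Homeomorph.mulLeft₀ (((1 : ℝ) / 2) ^ (j + 1)) h0) ∘
      (Homeomorph.addLeft (1 : ℝ)) ∘ Subtype.val := by
    funext s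
    simp [ht]
  rw [h1]
  exact (Homeomorph.isOpenEmbedding _).comp
    ((Homeomorph.isOpenEmbedding _).comp isOpen_Ioo.isOpenEmbedding_subtypeVal)

/-- Contraction of the unit interval to its midpoint. -/
noncomputable def cc (k : ℕ) (t : I01) : I01 :=
  ⟨1 / 2 + (t.1 - 1 / 2) * (1 / (k + 1)), by
    have h1 : (0 : ℝ) < 1 / (k + 1) := by positivity
    have h2 : (1 : ℝ) / (k + 1) ≤ 1 := by
      rw [div_le_one (by positivity)]
      have : (0 : ℝ) ≤ k := Nat.cast_nonneg k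
      linarith
    have h3 := t.2.1
    have h4 := t.2.2
    constructor <;> nlinarith⟩

theorem cc_openEmbedding (k : ℕ) : IsOpenEmbedding (cc k) := by
  have h0 : (1 : ℝ) / (k + 1) ≠ 0 := by positivity
  have h1 : Subtype.val ∘ cc k = (Homeomorph.addLeft (1 / 2 : ℝ)) ∘
      (Homeomorph.mulRight₀ ((1 : ℝ) / (k + 1)) h0) ∘ (Homeomorph.addRight (-(1 / 2) : ℝ)) ∘
        Subtype.val := by
    funext t
    simp [cc, sub_eq_add_neg]
  have h2 : IsOpenEmbedding (Subtype.val ∘ cc k) := by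
    rw [h1]
    exact (Homeomorph.isOpenEmbedding _).comp ((Homeomorph.isOpenEmbedding _).comp
      ((Homeomorph.isOpenEmbedding _).comp isOpen_Ioo.isOpenEmbedding_subtypeVal))
  exact IsOpenEmbedding.of_comp _ isOpen_Ioo.isOpenEmbedding_subtypeVal h2

/-- The rectangles above `δ`. -/
noncomputable def ee (δ : W) (j : ℕ) (q : I01 × I01) : Sg := (lam δ q.1, ht j q.2)

/-- The rectangles converging to a point. -/
noncomputable def dd (k : ℕ) (q : I01 × I01) : Sg := (lam w0 (cc k q.1), ht k q.2)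

theorem ee_openEmbedding (δ : W) (j : ℕ) : IsOpenEmbedding (ee δ j) :=
  (lam_openEmbedding δ).prodMap (ht_openEmbedding j)

theorem dd_openEmbedding (k : ℕ) : IsOpenEmbedding (dd k) :=
  ((lam_openEmbedding w0).comp (cc_openEmbedding k)).prodMap (ht_openEmbedding k)

theorem ee_inj {δ δ' : W} {j j' : ℕ} {q q' : I01 × I01} (h : ee δ j q = ee δ' j' q') :
    δ = δ' ∧ j = j' ∧ q = q' := by
  have h1 : lam δ q.1 = lam δ' q'.1 := congrArg Prod.fst h
  have h2 : ht j q.2 = ht j' q'.2 := congrArg Prod.snd h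
  have h3 : δ = δ' := congrArg fo h1
  have h4 := ht_inj h2
  subst h3
  subst h4
  exact ⟨rfl, rfl, (ee_openEmbedding δ j).injective h⟩

theorem dd_inj {k k' : ℕ} {q q' : I01 × I01} (h : dd k q = dd k' q') : k = k' ∧ q = q' := by
  have h2 : ht k q.2 = ht k' q'.2 := congrArg Prod.snd h
  have h4 := ht_inj h2
  subst h4
  exact ⟨rfl, (dd_openEmbedding k).injective h⟩

/-- The indices of the charts around the long ray. -/
abbrev Jx : Type := {α : W // w0 < α}

/-- The partial maps to the chart `none`. -/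
def ph : Option Jx → Sg → Sg → Prop
  | none, p, b => p = b
  | some α, p, b => ∃ δ < α.1, ∃ j, m α.1 δ ≤ j ∧ ∃ q, p = ee δ j q ∧
      b = dd (Nat.pair j (code δ j)) q

theorem ph_fun {i : Option Jx} {p b b' : Sg} (h : ph i p b) (h' : ph i p b') : b = b' := by
  cases i with
  | none => exact h.symm.trans h'
  | some α =>
    obtain ⟨δ, _, j, _, q, hp, hb⟩ := h
    obtain ⟨δ', _, j', _, q', hp', hb'⟩ := h'
    obtain ⟨h1, h2, h3⟩ := ee_inj (hp.symm.trans hp')
    subst h1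
    subst h2
    subst h3
    exact hb.trans hb'.symm

theorem ph_inj {i : Option Jx} {p p' b : Sg} (h : ph i p b) (h' : ph i p' b) : p = p' := by
  cases i with
  | none => exact h.trans h'.symm
  | some α =>
    obtain ⟨δ, hδ, j, hj, q, hp, hb⟩ := h
    obtain ⟨δ', hδ', j', hj', q', hp', hb'⟩ := h'
    obtain ⟨h1, h2⟩ := dd_inj (hb.symm.trans hb')
    have h3 := congrArg Nat.unpair h1
    rw [Nat.unpair_pair, Nat.unpair_pair] at h3
    have h4 : j = j' := congrArg Prod.fst h3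
    have h5 : code δ j = code δ' j' := congrArg Prod.snd h3
    subst h4
    have h6 := code_inj hδ hδ' hj hj' h5
    subst h6
    rw [hp, hp', h2]

theorem ph_image (i : Option Jx) {O : Set Sg} (hO : IsOpen O) :
    IsOpen {b | ∃ p ∈ O, ph i p b} := by
  cases i with
  | none =>
    have : {b | ∃ p ∈ O, ph none p b} = O := by
      ext b
      simp [ph]
    rw [this]
    exact hO
  | some α =>
    have : {b | ∃ p ∈ O, ph (some α) p b} = ⋃ δ : W, ⋃ j : ℕ, ⋃ _ : δ < α.1 ∧ m α.1 δ ≤ j,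
        dd (Nat.pair j (code δ j)) '' (ee δ j ⁻¹' O) := by
      ext b
      simp only [ph, mem_ofPred_eq, mem_iUnion, mem_image, mem_preimage, exists_prop]
      constructor
      · rintro ⟨p, hp, δ, hδ, j, hj, q, rfl, rfl⟩
        exact ⟨δ, j, ⟨hδ, hj⟩, q, hp, rfl⟩
      · rintro ⟨δ, j, ⟨hδ, hj⟩, q, hp, rfl⟩
        exact ⟨_, hp, δ, hδ, j, hj, q, rfl, rfl⟩
    rw [this]
    refine isOpen_iUnion fun δ => isOpen_iUnion fun j => isOpen_iUnion fun _ => ?_
    exact (dd_openEmbedding _).isOpenMap _ (hO.preimage (ee_openEmbedding δ j).continuous)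

theorem ph_preimage (i : Option Jx) {O : Set Sg} (hO : IsOpen O) :
    IsOpen {p | ∃ b ∈ O, ph i p b} := by
  cases i with
  | none =>
    have : {p | ∃ b ∈ O, ph none p b} = O := by
      ext b
      simp [ph]
    rw [this]
    exact hO
  | some α =>
    have : {p | ∃ b ∈ O, ph (some α) p b} = ⋃ δ : W, ⋃ j : ℕ, ⋃ _ : δ < α.1 ∧ m α.1 δ ≤ j,
        ee δ j '' (dd (Nat.pair j (code δ j)) ⁻¹' O) := by
      ext p
      simp only [ph, mem_ofPred_eq, mem_iUnion, mem_image, mem_preimage, exists_prop]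
      constructor
      · rintro ⟨b, hb, δ, hδ, j, hj, q, rfl, rfl⟩
        exact ⟨δ, j, ⟨hδ, hj⟩, q, hb, rfl⟩
      · rintro ⟨δ, j, ⟨hδ, hj⟩, q, hb, rfl⟩
        exact ⟨_, hb, δ, hδ, j, hj, q, rfl, rfl⟩
    rw [this]
    refine isOpen_iUnion fun δ => isOpen_iUnion fun j => isOpen_iUnion fun _ => ?_
    exact (ee_openEmbedding _ _).isOpenMap _ (hO.preimage (dd_openEmbedding _).continuous)

/-- Closed rectangles. -/
def KK (δ : W) (j : ℕ) : Set Sg := closure (range (ee δ j))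

theorem KK_fo {δ : W} {j : ℕ} {p : Sg} (h : p ∈ KK δ j) : δ ≤ fo p.1 := by
  have h1 : IsClosed {p : Sg | δ ≤ fo p.1} := by
    have : {p : Sg | δ ≤ fo p.1} = (Prod.fst ⁻¹' {y : Lo | fo y < δ})ᶜ := by
      ext p
      simp
    rw [this]
    exact ((isOpen_fo δ).preimage continuous_fst).isClosed_compl
  refine closure_minimal ?_ h1 h
  rintro _ ⟨q, rfl⟩
  exact le_refl δ

theorem KK_snd {δ : W} {j : ℕ} {p : Sg} (h : p ∈ KK δ j) : 0 < p.2 := by
  have h1 : IsClosed {p : Sg | (1 / 2 : ℝ) ^ (j + 1) ≤ p.2} :=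
    isClosed_le continuous_const continuous_snd
  have h2 : p ∈ {p : Sg | (1 / 2 : ℝ) ^ (j + 1) ≤ p.2} := by
    refine closure_minimal ?_ h1 h
    rintro _ ⟨q, rfl⟩
    exact (ht_gt j q.2).le
  exact lt_of_lt_of_le (by positivity) h2

/-- The rectangles on which the charts `α` and `β` disagree. -/
def Bad (α β : W) : Set (W × ℕ) :=
  {x | x.1 < α ∧ x.1 < β ∧ ¬ (m α x.1 ≤ x.2 ↔ m β x.1 ≤ x.2)}

theorem Bad_finite (α β : W) : (Bad α β).Finite := by
  have h1 := m_coh α β
  refine (h1.biUnion fun δ _ => (Set.finite_Iio (max (m α δ) (m β δ))).image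
    fun j => (δ, j)).subset ?_
  rintro ⟨δ, j⟩ ⟨h2, h3, h4⟩
  simp only [mem_iUnion, mem_image, mem_Iio, exists_prop, mem_ofPred_eq]
  refine ⟨δ, ⟨h2, h3, fun h => h4 ?_⟩, j, ?_, rfl⟩
  · simp only [h]
  · by_contra h
    push Not at h
    have h5 := max_le_iff.1 h
    exact h4 ⟨fun _ => h5.2, fun _ => h5.1⟩

theorem Bad_symm {α β : W} {x : W × ℕ} (h : x ∈ Bad α β) : x ∈ Bad β α :=
  ⟨h.2.1, h.1, fun h' => h.2.2 h'.symm⟩

/-- The charts `α` and `β` are glued at `p`. -/
def Same (α β : W) (p : Sg) : Prop :=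
  α = β ∨ (fo p.1 < α ∧ fo p.1 < β ∧ ∀ x ∈ Bad α β, p ∉ KK x.1 x.2)

theorem Same_symm {α β : W} {p : Sg} (h : Same α β p) : Same β α p := by
  rcases h with h | ⟨h1, h2, h3⟩
  · exact Or.inl h.symm
  · exact Or.inr ⟨h2, h1, fun x hx => h3 x (Bad_symm hx)⟩

theorem Same_trans {α β γ : W} {p : Sg} (h : Same α β p) (h' : Same β γ p) : Same α γ p := by
  rcases h with rfl | ⟨h1, h2, h3⟩
  · exact h'
  rcases h' with rfl | ⟨h4, h5, h6⟩
  · exact Or.inr ⟨h1, h2, h3⟩
  refine Or.inr ⟨h1, h5, ?_⟩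
  rintro ⟨δ, j⟩ ⟨h7, h8, h9⟩ hK
  have hδ : δ < β := lt_of_le_of_lt (KK_fo hK) h2
  apply h9
  have h10 : m α δ ≤ j ↔ m β δ ≤ j := by
    by_contra hno
    exact h3 (δ, j) ⟨h7, hδ, hno⟩ hK
  have h11 : m β δ ≤ j ↔ m γ δ ≤ j := by
    by_contra hno
    exact h6 (δ, j) ⟨hδ, h8, hno⟩ hK
  exact h10.trans h11

theorem Same_ph {α β : Jx} {p b : Sg} (h : Same α.1 β.1 p) (hp : ph (some α) p b) :
    ph (some β) p b := by
  rcases h with h | ⟨h1, h2, h3⟩
  · have : α = β := Subtype.ext h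
    rw [← this]
    exact hp
  · obtain ⟨δ, hδ, j, hj, q, rfl, rfl⟩ := hp
    have hK : ee δ j q ∈ KK δ j := subset_closure (mem_range_self q)
    have hδβ : δ < β.1 := h2
    refine ⟨δ, hδβ, j, ?_, q, rfl, rfl⟩
    by_contra hno
    exact h3 (δ, j) ⟨hδ, hδβ, fun h => hno (h.1 hj)⟩ hK

theorem isOpen_Same (α β : W) : IsOpen {p | Same α β p} := by
  by_cases h : α = β
  · have : {p | Same α β p} = univ := by
      ext p
      simp [Same, h]
    rw [this]
    exact isOpen_univ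
  · have : {p | Same α β p} = (Prod.fst ⁻¹' {y : Lo | fo y < α}) ∩
        (Prod.fst ⁻¹' {y : Lo | fo y < β}) ∩ (⋃ x ∈ Bad α β, KK x.1 x.2)ᶜ := by
      ext p
      simp only [Same, h, false_or, mem_ofPred_eq, mem_inter_iff, mem_preimage, mem_compl_iff,
        mem_iUnion, exists_prop, not_exists, not_and, and_assoc]
    rw [this]
    refine (((isOpen_fo α).preimage continuous_fst).inter
      ((isOpen_fo β).preimage continuous_fst)).inter ?_
    exact ((Bad_finite α β).isClosed_biUnion fun x _ => isClosed_closure).isOpen_compl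

/-- The gluing relation. -/
def Rel (a b : Option Jx × Sg) : Prop :=
  (∃ c, ph a.1 a.2 c ∧ ph b.1 b.2 c) ∨
    ∃ α β : Jx, a.1 = some α ∧ b.1 = some β ∧ a.2 = b.2 ∧ Same α.1 β.1 a.2

/-- The setoid defining the surface. -/
def st : Setoid (Option Jx × Sg) where
  r := Rel
  iseqv := by
    refine ⟨?_, ?_, ?_⟩
    · rintro ⟨i, p⟩
      cases i with
      | none => exact Or.inl ⟨p, rfl, rfl⟩
      | some α => exact Or.inr ⟨α, α, rfl, rfl, rfl, Or.inl rfl⟩
    · rintro a b (⟨c, h1, h2⟩ | ⟨α, β, h1, h2, h3, h4⟩)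
      · exact Or.inl ⟨c, h2, h1⟩
      · exact Or.inr ⟨β, α, h2, h1, h3.symm, h3 ▸ Same_symm h4⟩
    · rintro ⟨i, p⟩ ⟨j, q⟩ ⟨k, r⟩ h h'
      rcases h with ⟨c, h1, h2⟩ | ⟨α, β, h1, h2, h3, h4⟩
      · rcases h' with ⟨c', h1', h2'⟩ | ⟨α', β', h1', h2', h3', h4'⟩
        · have h5 := ph_fun h2 h1'
          subst h5
          exact Or.inl ⟨c, h1, h2'⟩
        · dsimp only at h1 h2 h1' h2' h3' h4'
          subst h1' h2' h3'
          exact Or.inl ⟨c, h1, Same_ph h4' h2⟩
      · dsimp only at h1 h2 h3 h4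
        subst h1 h2 h3
        rcases h' with ⟨c', h1', h2'⟩ | ⟨α', β', h1', h2', h3', h4'⟩
        · exact Or.inl ⟨c', Same_ph (Same_symm h4) h1', h2'⟩
        · dsimp only at h1' h2' h3' h4'
          have h5 : β = α' := Option.some.inj h1'
          subst h5
          subst h2' h3'
          exact Or.inr ⟨α, β', rfl, rfl, rfl, Same_trans h4 h4'⟩

theorem st_iff {i j : Option Jx} {p q : Sg} : st (i, p) (j, q) ↔
    (∃ c, ph i p c ∧ ph j q c) ∨
    ∃ α β : Jx, i = some α ∧ j = some β ∧ p = q ∧ Same α.1 β.1 p := Iff.rfl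

theorem st_inj (i : Option Jx) (p q : Sg) (h : st (i, p) (i, q)) : p = q := by
  rcases st_iff.1 h with ⟨c, h1, h2⟩ | ⟨_, _, _, _, h3, _⟩
  · exact ph_inj h1 h2
  · exact h3

theorem st_open (i j : Option Jx) (O : Set Sg) (hO : IsOpen O) :
    IsOpen {q | ∃ p ∈ O, st (i, p) (j, q)} := by
  have : {q | ∃ p ∈ O, st (i, p) (j, q)} =
      {q | ∃ c ∈ {c | ∃ p ∈ O, ph i p c}, ph j q c} ∪
      ⋃ α : Jx, ⋃ β : Jx, ⋃ _ : i = some α ∧ j = some β, O ∩ {q | Same α.1 β.1 q} := by
    ext q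
    simp only [mem_ofPred_eq, st_iff, mem_union, mem_iUnion, mem_inter_iff, exists_prop]
    constructor
    · rintro ⟨p, hp, ⟨c, h1, h2⟩ | ⟨α, β, h1, h2, h3, h4⟩⟩
      · exact Or.inl ⟨c, ⟨p, hp, h1⟩, h2⟩
      · subst h3
        exact Or.inr ⟨α, β, ⟨h1, h2⟩, hp, h4⟩
    · rintro (⟨c, ⟨p, hp, h1⟩, h2⟩ | ⟨α, β, ⟨h1, h2⟩, hp, h4⟩)
      · exact ⟨p, hp, Or.inl ⟨c, h1, h2⟩⟩
      · exact ⟨q, hp, Or.inr ⟨α, β, h1, h2, rfl, h4⟩⟩
  rw [this]
  refine (ph_preimage j (ph_image i hO)).union ?_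
  exact isOpen_iUnion fun α => isOpen_iUnion fun β => isOpen_iUnion fun _ =>
    hO.inter (isOpen_Same α.1 β.1)

/-- The non-Hausdorff surface. -/
def Sf : Type := Quotient st

noncomputable instance : TopologicalSpace Sf := glueTop st

/-- The charts of the surface. -/
def ch (i : Option Jx) (p : Sg) : Sf := chart st i p

theorem ch_openEmbedding (i : Option Jx) : IsOpenEmbedding (ch i) :=
  chart_openEmbedding st st_inj st_open i

theorem ch_eq {i j : Option Jx} {p q : Sg} : ch i p = ch j q ↔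
    (∃ c, ph i p c ∧ ph j q c) ∨
    ∃ α β : Jx, i = some α ∧ j = some β ∧ p = q ∧ Same α.1 β.1 p :=
  chart_eq.trans st_iff

theorem ch_surj (x : Sf) : ∃ i p, ch i p = x := chart_surj st x

theorem charted_Sg : Charted (EuclideanSpace ℝ (Fin 2)) Sg := by
  rintro ⟨y, r⟩
  obtain ⟨g, hg, v, rfl⟩ := charted_Lo y
  let e : EuclideanSpace ℝ (Fin 2) ≃ₜ ℝ × ℝ :=
    (EuclideanSpace.equiv (Fin 2) ℝ).toHomeomorph.trans (Homeomorph.finTwoArrow)
  refine ⟨Prod.map g id ∘ e, (hg.prodMap IsOpenEmbedding.id).comp e.isOpenEmbedding,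
    e.symm (v, r), ?_⟩
  simp

theorem charted_Sf : Charted (EuclideanSpace ℝ (Fin 2)) Sf :=
  charted_glue st charted_Sg ch_openEmbedding

theorem exists_I01 : Nonempty I01 := ⟨⟨1 / 2, by norm_num, by norm_num⟩⟩

instance : ConnectedSpace Sf := by
  have hrange : ∀ (i : Option Jx) (p q : Sg),
      connectedComponent (ch i p) = connectedComponent (ch i q) := by
    intro i p q
    apply connectedComponent_eq
    have h1 : IsPreconnected (range (ch i)) := isPreconnected_range (ch_openEmbedding i).continuous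
    exact h1.subset_connectedComponent (mem_range_self p) (mem_range_self q)
  obtain ⟨t⟩ := exists_I01
  let p0 : Sg := (lam w0 t, 0)
  have hall : ∀ (i : Option Jx) (p : Sg),
      connectedComponent (ch i p) = connectedComponent (ch none p0) := by
    intro i p
    cases i with
    | none => exact hrange none p p0
    | some α =>
      have h1 : ch (some α) (ee w0 (m α.1 w0) (t, t)) =
          ch none (dd (Nat.pair (m α.1 w0) (code w0 (m α.1 w0))) (t, t)) := by
        rw [ch_eq]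
        exact Or.inl ⟨_, ⟨w0, α.2, _, le_rfl, _, rfl, rfl⟩, rfl⟩
      rw [hrange _ p (ee w0 (m α.1 w0) (t, t)), h1, hrange none _ p0]
  have hne : Nonempty Sf := ⟨ch none p0⟩
  rw [connectedSpace_iff_connectedComponent]
  refine ⟨ch none p0, ?_⟩
  rw [eq_univ_iff_forall]
  intro y
  obtain ⟨i, p, rfl⟩ := ch_surj y
  rw [← hall i p]
  exact mem_connectedComponent

/-! ### The embedded long ray -/

theorem exists_al (y : Lo) : ∃ α : Jx, fo y < α.1 := by
  obtain ⟨a, ha⟩ := exists_gt_w (max (fo y) w0)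
  exact ⟨⟨a, lt_of_le_of_lt (le_max_right _ _) ha⟩, lt_of_le_of_lt (le_max_left _ _) ha⟩

/-- An index of a chart around `y`. -/
noncomputable def al (y : Lo) : Jx := (exists_al y).choose

theorem al_spec (y : Lo) : fo y < (al y).1 := (exists_al y).choose_spec

/-- The embedding of the open long ray. -/
noncomputable def io (y : Lo) : Sf := ch (some (al y)) (y, 0)

theorem io_eq {y : Lo} {α : Jx} (h : fo y < α.1) : io y = ch (some α) (y, 0) := by
  refine ch_eq.2 (Or.inr ⟨al y, α, rfl, rfl, rfl, Or.inr ⟨al_spec y, h, ?_⟩⟩)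
  intro x _ hK
  exact lt_irrefl (0 : ℝ) (KK_snd hK)

theorem io_chart {y : Lo} {α : Jx} {p : Sg} (h : io y = ch (some α) p) : p = (y, 0) := by
  rcases ch_eq.1 h with ⟨c, ⟨δ, _, j, _, q, hq, _⟩, _⟩ | ⟨_, _, _, _, h3, _⟩
  · exfalso
    have h1 : (0 : ℝ) = ht j q.2 := congrArg Prod.snd hq
    exact absurd h1 (ht_pos j q.2).ne
  · exact h3.symm

theorem io_chart' {y : Lo} {α : Jx} {p : Sg} (h : io y = ch (some α) p) : fo y < α.1 ∨
    α = al y := by
  rcases ch_eq.1 h with ⟨c, ⟨δ, _, j, _, q, hq, _⟩, _⟩ | ⟨α', β', h1, h2, _, h4⟩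
  · exfalso
    have h1 : (0 : ℝ) = ht j q.2 := congrArg Prod.snd hq
    exact absurd h1 (ht_pos j q.2).ne
  · have h1' := Option.some.inj h1
    have h2' := Option.some.inj h2
    subst h1'
    subst h2'
    rcases h4 with h5 | ⟨_, h6, _⟩
    · exact Or.inr (Subtype.ext h5).symm
    · exact Or.inl h6

theorem io_embedding : IsEmbedding io := by
  have hinj : Function.Injective io := by
    intro y y' h
    have h1 : io y = ch (some (al y')) (y', 0) := h
    have := io_chart h1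
    exact (congrArg Prod.fst this).symm
  refine ⟨?_, hinj⟩
  rw [isInducing_iff_nhds]
  intro y
  apply le_antisymm
  · -- continuity
    rw [← Filter.tendsto_iff_comap]
    have h1 : ContinuousAt (fun y' : Lo => ch (some (al y)) (y', 0)) y :=
      ((ch_openEmbedding _).continuous.comp (continuous_id.prodMk continuous_const)).continuousAt
    have h2 : (fun y' : Lo => ch (some (al y)) (y', 0)) =ᶠ[𝓝 y] io := by
      refine Filter.mem_of_superset ((isOpen_fo (al y).1).mem_nhds (al_spec y)) ?_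
      intro y' hy'
      exact (io_eq hy').symm
    exact h1.congr h2
  · intro V hV
    obtain ⟨V', hV'V, hV'o, hyV'⟩ := mem_nhds_iff.1 hV
    rw [Filter.mem_comap]
    refine ⟨ch (some (al y)) '' (Prod.fst ⁻¹' V'), ?_, ?_⟩
    · refine ((ch_openEmbedding _).isOpenMap _ (hV'o.preimage continuous_fst)).mem_nhds ?_
      exact ⟨(y, 0), hyV', rfl⟩
    · rintro y' ⟨p, hp, hpy⟩
      have h1 := io_chart hpy.symm
      rw [h1] at hp
      exact hV'V hp

/-- The special point. -/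
noncomputable def xx : Sf := ch none (lam w0 ⟨1 / 2, by norm_num, by norm_num⟩, 0)

theorem io_ne (y : Lo) : io y ≠ xx := by
  intro h
  rcases ch_eq.1 h with ⟨c, ⟨δ, _, j, _, q, hq, _⟩, _⟩ | ⟨_, _, _, h2, _, _⟩
  · have h1 : (0 : ℝ) = ht j q.2 := congrArg Prod.snd hq
    exact absurd h1 (ht_pos j q.2).ne
  · exact absurd h2 (by simp)

theorem io_nonSep (y : Lo) : io y ∈ NonSep xx := by
  refine ⟨io_ne y, fun U V hU hV hyU hxV => ?_⟩
  let mid : I01 := ⟨1 / 2, by norm_num, by norm_num⟩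
  -- the neighbourhood of the special point
  have h1 : IsOpen (ch none ⁻¹' V) := hV.preimage (ch_openEmbedding none).continuous
  have h2 : ((lam w0 mid, 0) : Sg) ∈ ch none ⁻¹' V := hxV
  obtain ⟨A, B, hA, hB, hxA, hxB, hAB⟩ := isOpen_prod_iff.1 h1 _ _ h2
  have h3 : IsOpen (lam w0 ⁻¹' A) := hA.preimage (lam_openEmbedding w0).continuous
  obtain ⟨A', hA', hA'eq⟩ := isOpen_induced_iff.1 h3
  have h4 : (1 / 2 : ℝ) ∈ A' := by
    have : mid ∈ Subtype.val ⁻¹' A' := by
      rw [hA'eq]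
      exact hxA
    exact this
  obtain ⟨ε, hε, hball⟩ := Metric.isOpen_iff.1 hA' _ h4
  obtain ⟨ε', hε', hball'⟩ := Metric.isOpen_iff.1 hB _ hxB
  -- the neighbourhood of the point of the ray
  have h5 : IsOpen (ch (some (al y)) ⁻¹' U) := hU.preimage (ch_openEmbedding _).continuous
  have h6 : ((y, 0) : Sg) ∈ ch (some (al y)) ⁻¹' U := hyU
  obtain ⟨C, D, hC, hD, hyC, hyD, hCD⟩ := isOpen_prod_iff.1 h5 _ _ h6
  obtain ⟨ε'', hε'', hball''⟩ := Metric.isOpen_iff.1 hD _ hyD
  obtain ⟨t, ht1⟩ := exists_lam_near y hC hyC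
  -- choose a level
  obtain ⟨n1, hn1⟩ := exists_pow_lt_of_lt_one (lt_min hε' hε'') (show (1 / 2 : ℝ) < 1 by norm_num)
  obtain ⟨n2, hn2⟩ := exists_nat_one_div_lt hε
  let j := max (max n1 n2) (m (al y).1 (fo y))
  have hj1 : n1 ≤ j := (le_max_left _ _).trans (le_max_left _ _)
  have hj2 : n2 ≤ j := (le_max_right _ _).trans (le_max_left _ _)
  have hj3 : m (al y).1 (fo y) ≤ j := le_max_right _ _
  let k := Nat.pair j (code (fo y) j)
  have hjk : j ≤ k := Nat.left_le_pair _ _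
  have hhtk : ∀ (l : ℕ), n1 ≤ l → ht l mid < min ε' ε'' := by
    intro l hl
    refine lt_trans (ht_lt l mid) (lt_of_le_of_lt ?_ hn1)
    exact pow_le_pow_of_le_one (by norm_num) (by norm_num) hl
  have hglue : ch (some (al y)) (ee (fo y) j (t, mid)) = ch none (dd k (t, mid)) := by
    rw [ch_eq]
    exact Or.inl ⟨_, ⟨fo y, al_spec y, j, hj3, _, rfl, rfl⟩, rfl⟩
  refine ⟨ch none (dd k (t, mid)), ?_, ?_⟩
  · rw [← hglue]
    have : ee (fo y) j (t, mid) ∈ C ×ˢ D := by
      refine ⟨ht1, hball'' ?_⟩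
      rw [Metric.mem_ball, Real.dist_eq]
      have h7 := ht_pos j mid
      have h8 := lt_of_lt_of_le (hhtk j hj1) (min_le_right _ _)
      change |ht j mid - 0| < ε''
      rw [sub_zero, abs_of_pos h7]
      exact h8
    exact hCD this
  · have : dd k (t, mid) ∈ A ×ˢ B := by
      constructor
      · have h9 : cc k t ∈ lam w0 ⁻¹' A := by
          rw [← hA'eq]
          apply hball
          rw [Metric.mem_ball, Real.dist_eq]
          change |1 / 2 + (t.1 - 1 / 2) * (1 / (k + 1)) - 1 / 2| < ε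
          have h10 : (1 : ℝ) / (k + 1) ≤ 1 / (n2 + 1) := by
            apply one_div_le_one_div_of_le (by positivity)
            have : (n2 : ℝ) ≤ k := by exact_mod_cast hj2.trans hjk
            linarith
          have h11 : (0 : ℝ) < 1 / (k + 1) := by positivity
          have h12 := t.2.1
          have h13 := t.2.2
          rw [abs_lt]
          constructor <;> nlinarith
        exact h9
      · apply hball'
        rw [Metric.mem_ball, Real.dist_eq]
        have h7 := ht_pos k mid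
        have h8 := lt_of_lt_of_le (hhtk k (hj1.trans hjk)) (min_le_left _ _)
        change |ht k mid - 0| < ε'
        rw [sub_zero, abs_of_pos h7]
        exact h8
    exact hAB this

end Pool.Agent.Q179.NH
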